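import Pool.Agent.helper25.TW.Spec

/-!
# Row two:CT0: the straight cut
-/

set_option autoImplicit false

namespace TP.TW

open DP MeasureTheory Finset

theorem CT0_row (W : Set V) (a d : ℤ) (n : ℕ) (h : ∀ i : ℕ, i ≤ n → (((a + i, d) : ℤ × ℤ) : V) ∈ W) :
    Relation.ReflTransGen (fun p q : V => Adj p q ∧ q ∈ W) (a, d) (a + n, d) := by
  induction n with
  | zero =>
    have e : ((a + ((0 : ℕ) : ℤ), d) : ℤ × ℤ) = (a, d) := by simp
    rw [e]
  | succ n ih =>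
    refine Relation.ReflTransGen.tail (ih fun i hi => h i (by omega)) ⟨⟨?_, Or.inr (Or.inl rfl)⟩, h (n + 1) le_rfl⟩
    unfold sd
    simp

theorem CT0_column (W : Set V) (a d : ℤ) (n : ℕ) (h : ∀ i : ℕ, i ≤ n → (((a, d + i) : ℤ × ℤ) : V) ∈ W) :
    Relation.ReflTransGen (fun p q : V => Adj p q ∧ q ∈ W) (a, d) (a, d + n) := by
  induction n with
  | zero =>
    have e : ((a, d + ((0 : ℕ) : ℤ)) : ℤ × ℤ) = (a, d) := by simp
    rw [e]
  | succ n ih =>
    refine Relation.ReflTransGen.tail (ih fun i hi => h i (by omega)) ⟨⟨?_, Or.inl rfl⟩, h (n + 1) le_rfl⟩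
    unfold sd
    simp

/-- The straight row resp. column is a cut. -/
theorem CT0 : CT0_stmt := by
  intro o c k a b d e K hab hde h1 h2
  cases o with
  | true =>
    obtain ⟨n, hn⟩ := Int.eq_ofNat_of_zero_le (sub_nonneg.mpr hab)
    have hb : b = a + n := by omega
    refine ⟨{w : V | a ≤ w.1 ∧ w.1 ≤ b ∧ w.2 = d}, (a, d), (b, d), ?_, ⟨?_, ?_⟩, ?_,
      (((Finset.Icc a b).image fun x : ℤ => ((x, d) : V)).image br), ?_, ?_⟩
    · rintro w ⟨hw1, hw2, hw3⟩
      exact ⟨hw1, hw2, hw3.ge, hw3.le.trans hde⟩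
    · exact ⟨le_rfl, hab, rfl⟩
    · rw [hb]
      refine CT0_row _ a d n (fun i hi => ⟨?_, ?_, rfl⟩)
      · show a ≤ a + (i : ℤ)
        omega
      · show a + (i : ℤ) ≤ a + n
        omega
    · simp
    · refine Finset.card_image_le.trans (Finset.card_image_le.trans ?_)
      rw [Int.card_Icc]
      omega
    · rintro w ⟨hw1, hw2, hw3⟩ _
      refine Finset.mem_image_of_mem br (Finset.mem_image.mpr ⟨w.1, Finset.mem_Icc.mpr ⟨hw1, hw2⟩, ?_⟩)
      rw [← hw3]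
  | false =>
    obtain ⟨n, hn⟩ := Int.eq_ofNat_of_zero_le (sub_nonneg.mpr hde)
    have hb : e = d + n := by omega
    refine ⟨{w : V | w.1 = a ∧ d ≤ w.2 ∧ w.2 ≤ e}, (a, d), (a, e), ?_, ⟨?_, ?_⟩, ?_,
      (((Finset.Icc d e).image fun x : ℤ => ((a, x) : V)).image br), ?_, ?_⟩
    · rintro w ⟨hw1, hw2, hw3⟩
      exact ⟨hw1.ge, hw1.le.trans hab, hw2, hw3⟩
    · exact ⟨rfl, le_rfl, hde⟩
    · rw [hb]
      refine CT0_column _ a d n (fun i hi => ⟨rfl, ?_, ?_⟩)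
      · show d ≤ d + (i : ℤ)
        omega
      · show d + (i : ℤ) ≤ d + n
        omega
    · simp
    · refine Finset.card_image_le.trans (Finset.card_image_le.trans ?_)
      rw [Int.card_Icc]
      omega
    · rintro w ⟨hw1, hw2, hw3⟩ _
      refine Finset.mem_image_of_mem br (Finset.mem_image.mpr ⟨w.2, Finset.mem_Icc.mpr ⟨hw2, hw3⟩, ?_⟩)
      rw [← hw1]

end TP.TW
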